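import Mathlib

/-!
# Thin slopes: freeness of semigroups of affine maps is generically decidable

`f_i(x) = m_i x + a_i`, `1 ≤ i ≤ k`. For fixed slopes with `∑ m_i ^ (-1/2) < 1` a test with finitely many
pairs of words certifies that the semigroup is free for all but `C (N+1)^(k-δ)` of the translation vectors
`a ∈ [0,N]^k`.
-/

set_option autoImplicit false

namespace Pool.Agent.Results.MP_b21470_lc.ThinSlopes

variable {k : ℕ}

/-- The map of a word: `comp m a [i₁, …, i_r] = f_{i₁} ∘ … ∘ f_{i_r}` with `f_i(x) = m_i x + a_i`. -/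
def comp (m a : Fin k → ℕ) : List (Fin k) → ℤ → ℤ
  | [], x => x
  | i :: w, x => (m i : ℤ) * comp m a w x + (a i : ℤ)

/-- The semigroup generated by the maps `f_i(x) = m_i x + a_i` is free on them: different nonempty words
give different maps. -/
def Free (m a : Fin k → ℕ) : Prop :=
  ∀ u v : List (Fin k), u ≠ [] → v ≠ [] → comp m a u = comp m a v → u = v

/-- The slope of a word: the product of the `m_i` over its letters. -/
def slope (m : Fin k → ℕ) : List (Fin k) → ℕ
  | [] => 1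
  | i :: w => m i * slope m w

/-- `- pt m a [i₁, …, i_r]` is the image of `0` under `f_{i₁}⁻¹ ∘ … ∘ f_{i_r}⁻¹`. -/
def pt (m a : Fin k → ℕ) : List (Fin k) → ℚ
  | [] => 0
  | i :: w => (pt m a w + (a i : ℚ)) / (m i : ℚ)

/-- Words which have just passed the slope `T`: the slope is more than `T`, but it is at most `T` without
the last letter. (For every `T` there are finitely many if all `m_i ≥ 2`; for `T = 1`: the letters.) -/
def Cut (m : Fin k → ℕ) (T : ℕ) (w : List (Fin k)) : Prop :=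
  T < slope m w ∧ slope m w.dropLast ≤ T

/-- The separation test at level `T`: for any two words `u`, `v` with different first letters which have
just passed the slope `T` the intervals `[pt u, pt u + N / slope u]` and `[pt v, pt v + N / slope v]`
(minus the images of `[-N, 0]` under the inverse maps of the words) are disjoint. -/
def Sep (m a : Fin k → ℕ) (N T : ℕ) : Prop :=
  ∀ u v : List (Fin k), Cut m T u → Cut m T v → u.head? ≠ v.head? →
    pt m a u + (N : ℚ) / (slope m u : ℚ) < pt m a v ∨ pt m a v + (N : ℚ) / (slope m v : ℚ) < pt m a u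

/-- The vectors `a` with `0 ≤ a_i ≤ N`. -/
def box (k N : ℕ) : Finset (Fin k → ℕ) := Fintype.piFinset fun _ : Fin k => Finset.range (N + 1)

/-! ### Elementary facts on words -/

lemma slope_append (m : Fin k → ℕ) (u v : List (Fin k)) :
    slope m (u ++ v) = slope m u * slope m v := by
  induction u with
  | nil => simp [slope]
  | cons i u ih => simp only [List.cons_append, slope, ih]; ring

lemma slope_pos (m : Fin k → ℕ) (hm : ∀ i, 2 ≤ m i) (w : List (Fin k)) : 0 < slope m w := by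
  induction w with
  | nil => simp [slope]
  | cons i w ih => exact Nat.mul_pos (by have := hm i; omega) ih

lemma slope_ge_two (m : Fin k → ℕ) (hm : ∀ i, 2 ≤ m i) (i : Fin k) (w : List (Fin k)) :
    2 ≤ slope m (i :: w) := by
  have h1 := slope_pos m hm w
  have h2 := hm i
  show 2 ≤ m i * slope m w
  nlinarith

lemma pt_append (m a : Fin k → ℕ) (hm : ∀ i, 2 ≤ m i) (u v : List (Fin k)) :
    pt m a (u ++ v) = pt m a u + pt m a v / (slope m u : ℚ) := by
  induction u with
  | nil => simp [slope, pt]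
  | cons i u ih =>
    have h1 : (slope m u : ℚ) ≠ 0 := by exact_mod_cast (slope_pos m hm u).ne'
    have h2 : (m i : ℚ) ≠ 0 := by
      have := hm i
      exact_mod_cast (by omega : m i ≠ 0)
    simp only [List.cons_append, slope, pt, ih]
    push_cast
    field_simp
    ring

lemma pt_nonneg (m a : Fin k → ℕ) (w : List (Fin k)) : 0 ≤ pt m a w := by
  induction w with
  | nil => simp [pt]
  | cons i w ih => simp only [pt]; positivity

lemma pt_le (m a : Fin k → ℕ) (hm : ∀ i, 2 ≤ m i) (N : ℕ) (ha : ∀ i, a i ≤ N)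
    (w : List (Fin k)) : pt m a w ≤ N := by
  induction w with
  | nil => simp [pt]
  | cons i w ih =>
    have h2 : (2 : ℚ) ≤ (m i : ℚ) := by exact_mod_cast hm i
    have h3 : (a i : ℚ) ≤ N := by exact_mod_cast ha i
    have h4 : (0 : ℚ) ≤ N := by positivity
    simp only [pt]
    rw [div_le_iff₀ (by linarith)]
    nlinarith

lemma slope_reverse (m : Fin k → ℕ) (w : List (Fin k)) : slope m w.reverse = slope m w := by
  induction w with
  | nil => rfl
  | cons i w ih =>
    rw [List.reverse_cons, slope_append, ih]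
    simp only [slope]
    ring

lemma comp_eq (m a : Fin k → ℕ) (w : List (Fin k)) (x : ℤ) :
    comp m a w x = (slope m w : ℤ) * x + comp m a w 0 := by
  induction w with
  | nil => simp [comp, slope]
  | cons i w ih =>
    simp only [comp, slope]
    rw [ih]
    push_cast
    ring

lemma pt_reverse (m a : Fin k → ℕ) (hm : ∀ i, 2 ≤ m i) (w : List (Fin k)) :
    pt m a w.reverse = (comp m a w 0 : ℚ) / (slope m w : ℚ) := by
  induction w with
  | nil => simp [pt, comp]
  | cons i w ih =>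
    have h1 : (slope m w : ℚ) ≠ 0 := by exact_mod_cast (slope_pos m hm w).ne'
    have h2 : (m i : ℚ) ≠ 0 := by
      have := hm i
      exact_mod_cast (by omega : m i ≠ 0)
    rw [List.reverse_cons, pt_append m a hm, ih, slope_reverse]
    simp only [comp, slope, pt]
    push_cast
    field_simp
    ring

/-! ### Powers of words -/

/-- the power of a word -/
def pw (w : List (Fin k)) : ℕ → List (Fin k)
  | 0 => []
  | n + 1 => w ++ pw w n

lemma slope_pw (m : Fin k → ℕ) (w : List (Fin k)) (n : ℕ) :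
    slope m (pw w n) = slope m w ^ n := by
  induction n with
  | zero => rfl
  | succ n ih => rw [pw, slope_append, ih, pow_succ]; ring

lemma pt_pw (m a : Fin k → ℕ) (hm : ∀ i, 2 ≤ m i) (u v : List (Fin k))
    (h1 : slope m u = slope m v) (h2 : pt m a u = pt m a v) (n : ℕ) :
    pt m a (pw u n) = pt m a (pw v n) := by
  induction n with
  | zero => rfl
  | succ n ih => rw [pw, pw, pt_append m a hm, pt_append m a hm, ih, h1, h2]

/-- a word of slope more than `T` has a prefix which has just passed `T` -/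
lemma exists_cut (m : Fin k → ℕ) (T : ℕ) (hT : 1 ≤ T) (n : ℕ) :
    ∀ w : List (Fin k), w.length = n → T < slope m w → ∃ p s, w = p ++ s ∧ Cut m T p := by
  induction n with
  | zero =>
    intro w hw h
    obtain rfl := List.length_eq_zero_iff.1 hw
    exfalso
    simp only [slope] at h
    omega
  | succ n ih =>
    intro w hw h
    by_cases h1 : slope m w.dropLast ≤ T
    · exact ⟨w, [], by simp, h, h1⟩
    · have hne : w ≠ [] := by
        rintro rfl
        simp at hw
      obtain ⟨p, s, h2, h3⟩ := ih w.dropLast (by simp [hw]) (by omega)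
      refine ⟨p, s ++ [w.getLast hne], ?_, h3⟩
      rw [← List.append_assoc, ← h2, List.dropLast_append_getLast]

lemma cut_ne_nil (m : Fin k → ℕ) (T : ℕ) (hT : 1 ≤ T) (p : List (Fin k)) (h : Cut m T p) :
    p ≠ [] := by
  rintro rfl
  have := h.1
  simp only [slope] at this
  omega

/-- a word with the prefix `p` has its point in the interval of `p` -/
lemma pt_mem (m a : Fin k → ℕ) (hm : ∀ i, 2 ≤ m i) (N : ℕ) (ha : ∀ i, a i ≤ N)
    (p s : List (Fin k)) :
    pt m a p ≤ pt m a (p ++ s) ∧ pt m a (p ++ s) ≤ pt m a p + (N : ℚ) / (slope m p : ℚ) := by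
  have h1 : (0 : ℚ) < (slope m p : ℚ) := by exact_mod_cast slope_pos m hm p
  rw [pt_append m a hm]
  constructor
  · have := div_nonneg (pt_nonneg m a s) h1.le
    linarith
  · have := div_le_div_of_nonneg_right (pt_le m a hm N ha s) h1.le
    linarith

/-- if the test succeeds, words with equal slopes and equal points are equal -/
lemma eq_of_sep (m a : Fin k → ℕ) (hm : ∀ i, 2 ≤ m i) (N T : ℕ) (hT : 1 ≤ T)
    (ha : ∀ i, a i ≤ N) (hs : Sep m a N T) :
    ∀ u v : List (Fin k), slope m u = slope m v → pt m a u = pt m a v → u = v := by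
  intro u
  induction u with
  | nil =>
    intro v h1 h2
    cases v with
    | nil => rfl
    | cons j v =>
      exfalso
      have := slope_ge_two m hm j v
      rw [← h1] at this
      simp only [slope] at this
      omega
  | cons i u ih =>
    intro v h1 h2
    cases v with
    | nil =>
      exfalso
      have := slope_ge_two m hm i u
      rw [h1] at this
      simp only [slope] at this
      omega
    | cons j v =>
      by_cases hij : i = j
      · subst hij
        have hmi : (m i : ℚ) ≠ 0 := by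
          have := hm i
          exact_mod_cast (by omega : m i ≠ 0)
        have h3 : slope m u = slope m v :=
          Nat.eq_of_mul_eq_mul_left (by have := hm i; omega) h1
        have h4 : pt m a u = pt m a v := by
          simp only [pt] at h2
          have := (div_left_inj' hmi).1 h2
          linarith
        rw [ih v h3 h4]
      · exfalso
        have hU : T < slope m (pw (i :: u) T) := by
          rw [slope_pw]
          have h5 := slope_ge_two m hm i u
          exact lt_of_lt_of_le (Nat.lt_two_pow_self) (Nat.pow_le_pow_left h5 T)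
        have hV : T < slope m (pw (j :: v) T) := by
          rw [slope_pw, ← h1, ← slope_pw]
          exact hU
        have hpt := pt_pw m a hm (i :: u) (j :: v) h1 h2 T
        obtain ⟨p, s, hp, hpc⟩ := exists_cut m T hT _ _ rfl hU
        obtain ⟨q, t, hq, hqc⟩ := exists_cut m T hT _ _ rfl hV
        have hp0 := cut_ne_nil m T hT p hpc
        have hq0 := cut_ne_nil m T hT q hqc
        obtain ⟨n, rfl⟩ : ∃ n, T = n + 1 := ⟨T - 1, by omega⟩
        have hph : p.head? = some i := by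
          cases p with
          | nil => exact absurd rfl hp0
          | cons x p =>
            simp only [pw, List.cons_append, List.cons.injEq] at hp
            simp [hp.1]
        have hqh : q.head? = some j := by
          cases q with
          | nil => exact absurd rfl hq0
          | cons x q =>
            simp only [pw, List.cons_append, List.cons.injEq] at hq
            simp [hq.1]
        have hne : p.head? ≠ q.head? := by
          rw [hph, hqh]
          simpa using hij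
        have h6 := pt_mem m a hm N ha p s
        have h7 := pt_mem m a hm N ha q t
        rw [← hp] at h6
        rw [← hq, ← hpt] at h7
        rcases hs p q hpc hqc hne with h | h <;> linarith [h6.1, h6.2, h7.1, h7.2]

/-- the test is sound -/
theorem free_of_sep (m a : Fin k → ℕ) (hm : ∀ i, 2 ≤ m i) (N T : ℕ) (hT : 1 ≤ T)
    (ha : ∀ i, a i ≤ N) (hs : Sep m a N T) : Free m a := by
  intro u v _ _ h
  have h0 : comp m a u 0 = comp m a v 0 := by rw [h]
  have h1 : slope m u = slope m v := by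
    have h2 : comp m a u 1 = comp m a v 1 := by rw [h]
    rw [comp_eq m a u, comp_eq m a v, h0] at h2
    have : (slope m u : ℤ) = (slope m v : ℤ) := by linarith
    exact_mod_cast this
  have h3 : pt m a u.reverse = pt m a v.reverse := by
    rw [pt_reverse m a hm, pt_reverse m a hm, h0, h1]
  have h4 := eq_of_sep m a hm N T hT ha hs u.reverse v.reverse
    (by rw [slope_reverse, slope_reverse, h1]) h3
  exact List.reverse_injective h4

/-! ### The points are linear forms in the translations -/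

/-- the coefficient of `a i` in `pt m a w` -/
def coef (m : Fin k → ℕ) : List (Fin k) → Fin k → ℚ
  | [], _ => 0
  | j :: w, i => (coef m w i + if j = i then 1 else 0) / (m j : ℚ)

lemma pt_eq_coef (m a : Fin k → ℕ) (w : List (Fin k)) :
    pt m a w = ∑ i, coef m w i * (a i : ℚ) := by
  induction w with
  | nil => simp [pt, coef]
  | cons j w ih =>
    simp only [pt, coef, ih]
    have h : ∀ i : Fin k, (coef m w i + if j = i then 1 else 0) / (m j : ℚ) * (a i : ℚ) =
        (coef m w i * (a i : ℚ) + if j = i then (a i : ℚ) else 0) / (m j : ℚ) := by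
      intro i
      split_ifs <;> ring
    rw [Finset.sum_congr rfl fun i _ => h i, ← Finset.sum_div, Finset.sum_add_distrib]
    simp

lemma coef_nonneg (m : Fin k → ℕ) (w : List (Fin k)) (i : Fin k) : 0 ≤ coef m w i := by
  induction w with
  | nil => simp [coef]
  | cons j w ih =>
    simp only [coef]
    apply div_nonneg _ (by positivity)
    split_ifs <;> linarith

lemma coef_le (m : Fin k → ℕ) (hm : ∀ i, 2 ≤ m i) (w : List (Fin k)) (i : Fin k) :
    coef m w i ≤ 1 / ((m i : ℚ) - 1) := by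
  have hi : (2 : ℚ) ≤ (m i : ℚ) := by exact_mod_cast hm i
  have hi1 : (0 : ℚ) < (m i : ℚ) - 1 := by linarith
  induction w with
  | nil => simp only [coef]; positivity
  | cons j w ih =>
    have hj : (2 : ℚ) ≤ (m j : ℚ) := by exact_mod_cast hm j
    simp only [coef]
    rw [div_le_iff₀ (by linarith)]
    by_cases h : j = i
    · subst h
      rw [if_pos rfl]
      rw [le_div_iff₀ hi1] at ih
      rw [div_mul_eq_mul_div, le_div_iff₀ hi1]
      nlinarith
    · rw [if_neg h, add_zero]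
      have : 0 ≤ 1 / ((m i : ℚ) - 1) := by positivity
      nlinarith

/-- the gap between the coefficients of `a i` for words starting with `i` and with `j ≠ i` -/
lemma coef_gap (m : Fin k → ℕ) (hm : ∀ i, 2 ≤ m i) (B : ℕ) (hB : ∀ i, m i ≤ B) (i j : Fin k)
    (hij : i ≠ j) (h2 : m i ≠ 2 ∨ m j ≠ 2) (u v : List (Fin k)) :
    1 / (4 * (B : ℚ)) ≤ coef m (i :: u) i - coef m (j :: v) i := by
  have hi : (2 : ℚ) ≤ (m i : ℚ) := by exact_mod_cast hm i
  have hj : (2 : ℚ) ≤ (m j : ℚ) := by exact_mod_cast hm j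
  have hiB : (m i : ℚ) ≤ (B : ℚ) := by exact_mod_cast hB i
  have hjB : (m j : ℚ) ≤ (B : ℚ) := by exact_mod_cast hB j
  have hi1 : (0 : ℚ) < (m i : ℚ) - 1 := by linarith
  have hprod : (2 : ℚ) ≤ ((m i : ℚ) - 1) * ((m j : ℚ) - 1) := by
    rcases h2 with h | h
    · have h3 : (3 : ℚ) ≤ (m i : ℚ) := by
        have := hm i
        exact_mod_cast (by omega : 3 ≤ m i)
      nlinarith
    · have h3 : (3 : ℚ) ≤ (m j : ℚ) := by
        have := hm j
        exact_mod_cast (by omega : 3 ≤ m j)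
      nlinarith
  have e1 : 1 / (m i : ℚ) ≤ coef m (i :: u) i := by
    simp only [coef, if_true]
    apply div_le_div_of_nonneg_right _ (by linarith)
    have := coef_nonneg m u i
    linarith
  have e2 : coef m (j :: v) i ≤ 1 / (((m i : ℚ) - 1) * (m j : ℚ)) := by
    simp only [coef]
    rw [if_neg hij.symm, add_zero, ← div_div]
    exact div_le_div_of_nonneg_right (coef_le m hm v i) (by linarith)
  have e3 : 1 / (4 * (B : ℚ)) ≤ 1 / (m i : ℚ) - 1 / (((m i : ℚ) - 1) * (m j : ℚ)) := by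
    have hmi : (m i : ℚ) ≠ 0 := by linarith
    have hmj : (m j : ℚ) ≠ 0 := by linarith
    have hmi1 : (m i : ℚ) - 1 ≠ 0 := hi1.ne'
    have e4 : 1 / (m i : ℚ) - 1 / (((m i : ℚ) - 1) * (m j : ℚ)) - 1 / (4 * (m i : ℚ)) =
        (3 * (((m i : ℚ) - 1) * ((m j : ℚ) - 1)) - 4 - ((m i : ℚ) - 1)) /
          (4 * (m i : ℚ) * (((m i : ℚ) - 1) * (m j : ℚ))) := by
      field_simp
      ring
    have e5 : 0 ≤ (3 * (((m i : ℚ) - 1) * ((m j : ℚ) - 1)) - 4 - ((m i : ℚ) - 1)) /
          (4 * (m i : ℚ) * (((m i : ℚ) - 1) * (m j : ℚ))) := by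
      apply div_nonneg
      · nlinarith
      · positivity
    have e6 : 1 / (4 * (B : ℚ)) ≤ 1 / (4 * (m i : ℚ)) :=
      one_div_le_one_div_of_le (by linarith) (by linarith)
    linarith
  linarith

/-! ### Counting translation vectors -/

lemma card_le_of_close (S : Finset ℕ) (D : ℕ)
    (h : ∀ x ∈ S, ∀ y ∈ S, x ≤ y → y ≤ x + D) : S.card ≤ D + 1 := by
  rcases S.eq_empty_or_nonempty with rfl | hne
  · simp
  · have hsub : S ⊆ Finset.Icc (S.min' hne) (S.min' hne + D) := by
      intro y hy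
      rw [Finset.mem_Icc]
      exact ⟨S.min'_le y hy, h _ (S.min'_mem hne) y hy (S.min'_le y hy)⟩
    calc S.card ≤ (Finset.Icc (S.min' hne) (S.min' hne + D)).card := Finset.card_le_card hsub
      _ = D + 1 := by rw [Nat.card_Icc]; omega

lemma card_box (N : ℕ) : (box k N).card = (N + 1) ^ k := by
  simp [box]

lemma mem_box (N : ℕ) (a : Fin k → ℕ) : a ∈ box k N ↔ ∀ i, a i ≤ N := by
  simp [box]

lemma fiber_bound (N D : ℕ) (i : Fin k) (P : Finset (Fin k → ℕ)) (hP : P ⊆ box k N)
    (h : ∀ a ∈ P, ∀ b ∈ P, (∀ j, j ≠ i → a j = b j) → a i ≤ b i → b i ≤ a i + D) :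
    P.card * (N + 1) ≤ (D + 1) * (N + 1) ^ k := by
  classical
  have h1 : (P ×ˢ Finset.range (N + 1)).card ≤ (D + 1) * (box k N).card := by
    apply Finset.card_le_mul_card_image_of_maps_to (f := fun x : (Fin k → ℕ) × ℕ =>
      Function.update x.1 i x.2)
    · rintro ⟨a, t⟩ hx
      rw [Finset.mem_product, Finset.mem_range] at hx
      rw [mem_box]
      intro j
      by_cases hj : j = i
      · subst hj
        simp only [Function.update_self]
        have := hx.2
        omega
      · simp only [Function.update_of_ne hj]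
        exact (mem_box N a).1 (hP hx.1) j
    · intro b _
      set F := (P ×ˢ Finset.range (N + 1)).filter
        (fun x : (Fin k → ℕ) × ℕ => Function.update x.1 i x.2 = b) with hF
      have hprop : ∀ x ∈ F, x.1 ∈ P ∧ x.2 = b i ∧ ∀ j, j ≠ i → x.1 j = b j := by
        rintro ⟨a, t⟩ hx
        rw [hF, Finset.mem_filter, Finset.mem_product] at hx
        refine ⟨hx.1.1, ?_, ?_⟩
        · have := congrFun hx.2 i
          simpa using this
        · intro j hj
          have := congrFun hx.2 j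
          simpa [Function.update_of_ne hj] using this
      have hinj : Set.InjOn (fun x : (Fin k → ℕ) × ℕ => x.1 i) F := by
        rintro ⟨a, t⟩ hx ⟨a', t'⟩ hx' hxx
        have p1 := hprop _ hx
        have p2 := hprop _ hx'
        simp only at p1 p2 hxx
        have ht : t = t' := p1.2.1.trans p2.2.1.symm
        have ha : a = a' := by
          funext j
          by_cases hj : j = i
          · subst hj; exact hxx
          · rw [p1.2.2 j hj, p2.2.2 j hj]
        rw [ht, ha]
      rw [← Finset.card_image_of_injOn hinj]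
      apply card_le_of_close
      intro x hx y hy hxy
      rw [Finset.mem_image] at hx hy
      obtain ⟨xa, hxa, rfl⟩ := hx
      obtain ⟨ya, hya, rfl⟩ := hy
      have p1 := hprop _ hxa
      have p2 := hprop _ hya
      exact h _ p1.1 _ p2.1 (fun j hj => by rw [p1.2.2 j hj, p2.2.2 j hj]) hxy
  rw [Finset.card_product, Finset.card_range, card_box] at h1
  exact h1

/-- For one pair of words with different first letters few translation vectors make the points close. -/
lemma pair_bound (m : Fin k → ℕ) (hm : ∀ i, 2 ≤ m i) (B : ℕ) (hB : ∀ i, m i ≤ B)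
    (h22 : ∀ i j, i ≠ j → m i ≠ 2 ∨ m j ≠ 2) (N T : ℕ) (hT : 1 ≤ T)
    (i j : Fin k) (hij : i ≠ j) (u v : List (Fin k)) (P : Finset (Fin k → ℕ)) (hP : P ⊆ box k N)
    (h : ∀ a ∈ P, |pt m a (i :: u) - pt m a (j :: v)| ≤ (N : ℚ) / (T : ℚ)) :
    P.card * T * (N + 1) ≤ (8 * N * B + T) * (N + 1) ^ k := by
  classical
  have hB0 : 0 < B := by
    have := hm i
    have := hB i
    omega
  have hTq : (0 : ℚ) < (T : ℚ) := by exact_mod_cast hT
  have hBq : (0 : ℚ) < (B : ℚ) := by exact_mod_cast hB0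
  have hgap := coef_gap m hm B hB i j hij (h22 i j hij) u v
  set D : ℕ := 8 * N * B / T with hD
  have hfib : P.card * (N + 1) ≤ (D + 1) * (N + 1) ^ k := by
    apply fiber_bound N D i P hP
    intro a ha b hb hab hle
    have h1 := h a ha
    have h2 := h b hb
    have hdiff : (pt m b (i :: u) - pt m b (j :: v)) - (pt m a (i :: u) - pt m a (j :: v)) =
        (coef m (i :: u) i - coef m (j :: v) i) * ((b i : ℚ) - (a i : ℚ)) := by
      have e : (pt m b (i :: u) - pt m b (j :: v)) - (pt m a (i :: u) - pt m a (j :: v)) =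
          ∑ l, (coef m (i :: u) l - coef m (j :: v) l) * ((b l : ℚ) - (a l : ℚ)) := by
        rw [pt_eq_coef m b, pt_eq_coef m b, pt_eq_coef m a, pt_eq_coef m a,
          ← Finset.sum_sub_distrib, ← Finset.sum_sub_distrib, ← Finset.sum_sub_distrib]
        apply Finset.sum_congr rfl
        intro l _
        ring
      rw [e]
      apply Finset.sum_eq_single i
      · intro l _ hl
        rw [hab l hl]
        ring
      · intro hh
        exact absurd (Finset.mem_univ i) hh
    have h3 : (coef m (i :: u) i - coef m (j :: v) i) * ((b i : ℚ) - (a i : ℚ)) ≤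
        2 * ((N : ℚ) / (T : ℚ)) := by
      rw [← hdiff]
      rw [abs_le] at h1 h2
      linarith [h1.1, h1.2, h2.1, h2.2]
    have h4 : (0 : ℚ) ≤ (b i : ℚ) - (a i : ℚ) := by
      have : (a i : ℚ) ≤ (b i : ℚ) := by exact_mod_cast hle
      linarith
    have h5 : 1 / (4 * (B : ℚ)) * ((b i : ℚ) - (a i : ℚ)) ≤ 2 * ((N : ℚ) / (T : ℚ)) :=
      le_trans (mul_le_mul_of_nonneg_right hgap h4) h3
    have h6 : ((b i : ℚ) - (a i : ℚ)) * (T : ℚ) ≤ 8 * (N : ℚ) * (B : ℚ) := by
      have hB3 : (0 : ℚ) < 4 * (B : ℚ) := by positivity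
      rw [one_div, inv_mul_le_iff₀ hB3] at h5
      calc ((b i : ℚ) - (a i : ℚ)) * (T : ℚ)
          ≤ ((4 * (B : ℚ)) * (2 * ((N : ℚ) / (T : ℚ)))) * (T : ℚ) :=
            mul_le_mul_of_nonneg_right h5 hTq.le
        _ = 8 * (N : ℚ) * (B : ℚ) := by
            field_simp
            ring
    have h7 : (b i - a i) * T ≤ 8 * N * B := by
      have h8 : (((b i - a i) * T : ℕ) : ℚ) ≤ ((8 * N * B : ℕ) : ℚ) := by
        push_cast [Nat.cast_sub hle]
        exact h6
      exact_mod_cast h8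
    have h9 : b i - a i ≤ D := by
      rw [hD, Nat.le_div_iff_mul_le (by omega)]
      exact h7
    omega
  have hDT : D * T ≤ 8 * N * B := Nat.div_mul_le_self _ _
  calc P.card * T * (N + 1) = (P.card * (N + 1)) * T := by ring
    _ ≤ ((D + 1) * (N + 1) ^ k) * T := Nat.mul_le_mul_right _ hfib
    _ = (D * T + T) * (N + 1) ^ k := by ring
    _ ≤ (8 * N * B + T) * (N + 1) ^ k := Nat.mul_le_mul_right _ (Nat.add_le_add_right hDT _)

/-! ### Counting words -/

lemma words_le (m : Fin k → ℕ) (hm : ∀ i, 2 ≤ m i) (σ : ℝ) (hσ : 0 ≤ σ)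
    (hq : ∑ i, ((m i : ℝ)) ^ (-σ) < 1) (n : ℕ) :
    ∃ F : Finset (List (Fin k)), (∀ w, slope m w ≤ n → w ∈ F) ∧
      (F.card : ℝ) ≤ (n : ℝ) ^ σ / (1 - ∑ i, ((m i : ℝ)) ^ (-σ)) := by
  classical
  set q := ∑ i, ((m i : ℝ)) ^ (-σ) with hqdef
  have hq1 : 0 < 1 - q := by linarith
  induction n using Nat.strong_induction_on with
  | _ n ih =>
    rcases Nat.eq_zero_or_pos n with rfl | hn
    · refine ⟨∅, ?_, ?_⟩
      · intro w hw
        have := slope_pos m hm w
        omega
      · simp only [Finset.card_empty, Nat.cast_zero]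
        positivity
    · have hlt : ∀ i, n / m i < n := fun i => Nat.div_lt_self hn (by have := hm i; omega)
      choose G hG1 hG2 using fun i => ih (n / m i) (hlt i)
      refine ⟨insert [] (Finset.univ.biUnion fun i => (G i).image (List.cons i)), ?_, ?_⟩
      · intro w hw
        cases w with
        | nil => exact Finset.mem_insert_self _ _
        | cons i w =>
          apply Finset.mem_insert_of_mem
          rw [Finset.mem_biUnion]
          refine ⟨i, Finset.mem_univ _, Finset.mem_image_of_mem _ (hG1 i w ?_)⟩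
          rw [Nat.le_div_iff_mul_le (by have := hm i; omega)]
          calc slope m w * m i = m i * slope m w := by ring
            _ ≤ n := hw
      · have hnr : (1 : ℝ) ≤ (n : ℝ) := by exact_mod_cast hn
        have hbound : ∀ i, ((G i).card : ℝ) ≤ (n : ℝ) ^ σ / (1 - q) * (m i : ℝ) ^ (-σ) := by
          intro i
          have hmi : (0 : ℝ) < (m i : ℝ) := by
            have := hm i
            exact_mod_cast (by omega : 0 < m i)
          refine (hG2 i).trans ?_
          have h1 : ((n / m i : ℕ) : ℝ) ≤ (n : ℝ) / (m i : ℝ) := Nat.cast_div_le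
          have h2 : ((n / m i : ℕ) : ℝ) ^ σ ≤ ((n : ℝ) / (m i : ℝ)) ^ σ :=
            Real.rpow_le_rpow (by positivity) h1 hσ
          have h3 : ((n : ℝ) / (m i : ℝ)) ^ σ = (n : ℝ) ^ σ * (m i : ℝ) ^ (-σ) := by
            rw [Real.div_rpow (by positivity) hmi.le, Real.rpow_neg hmi.le]
            rfl
          rw [h3] at h2
          calc ((n / m i : ℕ) : ℝ) ^ σ / (1 - q) ≤ ((n : ℝ) ^ σ * (m i : ℝ) ^ (-σ)) / (1 - q) :=
                div_le_div_of_nonneg_right h2 hq1.le
            _ = (n : ℝ) ^ σ / (1 - q) * (m i : ℝ) ^ (-σ) := by ring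
        have hcard : ((insert [] (Finset.univ.biUnion fun i => (G i).image (List.cons i)) :
            Finset (List (Fin k))).card : ℝ) ≤ 1 + ∑ i, ((G i).card : ℝ) := by
          have h4 : (insert [] (Finset.univ.biUnion fun i => (G i).image (List.cons i)) :
              Finset (List (Fin k))).card ≤ 1 + ∑ i, (G i).card := by
            calc _ ≤ (Finset.univ.biUnion fun i => (G i).image (List.cons i)).card + 1 :=
                  Finset.card_insert_le _ _
              _ ≤ (∑ i, ((G i).image (List.cons i)).card) + 1 :=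
                  Nat.add_le_add_right Finset.card_biUnion_le _
              _ ≤ (∑ i, (G i).card) + 1 :=
                  Nat.add_le_add_right (Finset.sum_le_sum fun i _ => Finset.card_image_le) _
              _ = 1 + ∑ i, (G i).card := by ring
          exact_mod_cast h4
        have hn1 : (1 : ℝ) ≤ (n : ℝ) ^ σ := Real.one_le_rpow hnr hσ
        calc _ ≤ 1 + ∑ i, ((G i).card : ℝ) := hcard
          _ ≤ (n : ℝ) ^ σ + ∑ i, (n : ℝ) ^ σ / (1 - q) * (m i : ℝ) ^ (-σ) :=
              add_le_add hn1 (Finset.sum_le_sum fun i _ => hbound i)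
          _ = (n : ℝ) ^ σ + (n : ℝ) ^ σ / (1 - q) * q := by rw [← Finset.mul_sum]
          _ = (n : ℝ) ^ σ / (1 - q) := by
              field_simp
              ring

/-- below the threshold there is an exponent less than `1/2` -/
lemma exists_sigma (m : Fin k → ℕ) (hm : ∀ i, 2 ≤ m i)
    (hthin : ∑ i, 1 / Real.sqrt (m i : ℝ) < 1) :
    ∃ σ : ℝ, 0 ≤ σ ∧ σ < 1 / 2 ∧ ∑ i, ((m i : ℝ)) ^ (-σ) < 1 := by
  have hcont : Continuous fun σ : ℝ => ∑ i, ((m i : ℝ)) ^ (-σ) := by
    apply continuous_finsetSum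
    intro i _
    have hmi : (m i : ℝ) ≠ 0 := by
      have := hm i
      exact_mod_cast (by omega : m i ≠ 0)
    exact Continuous.rpow continuous_const continuous_neg (fun x => Or.inl hmi)
  have hopen : IsOpen {σ : ℝ | ∑ i, ((m i : ℝ)) ^ (-σ) < 1} := isOpen_lt hcont continuous_const
  have hmem : (1 / 2 : ℝ) ∈ {σ : ℝ | ∑ i, ((m i : ℝ)) ^ (-σ) < 1} := by
    show ∑ i, ((m i : ℝ)) ^ (-(1 / 2 : ℝ)) < 1
    have h : ∀ i, ((m i : ℝ)) ^ (-(1 / 2 : ℝ)) = 1 / Real.sqrt (m i : ℝ) := by
      intro i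
      rw [Real.rpow_neg (by positivity), ← Real.sqrt_eq_rpow, one_div]
    rw [Finset.sum_congr rfl fun i _ => h i]
    exact hthin
  obtain ⟨ε, hε, hball⟩ := Metric.isOpen_iff.1 hopen _ hmem
  refine ⟨1 / 2 - min ε 1 / 2, ?_, ?_, ?_⟩
  · have := min_le_right ε 1
    linarith
  · have : 0 < min ε 1 := lt_min hε one_pos
    linarith
  · apply hball
    rw [Metric.mem_ball, Real.dist_eq]
    have h1 : 0 < min ε 1 := lt_min hε one_pos
    have h2 := min_le_left ε 1
    rw [show (1 / 2 - min ε 1 / 2 - 1 / 2 : ℝ) = -(min ε 1 / 2) by ring, abs_neg,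
      abs_of_pos (by linarith)]
    linarith

lemma not_both_two (m : Fin k → ℕ) (hthin : ∑ i, 1 / Real.sqrt (m i : ℝ) < 1) :
    ∀ i j, i ≠ j → m i ≠ 2 ∨ m j ≠ 2 := by
  classical
  intro i j hij
  by_contra hcon
  push Not at hcon
  have h1 : ∑ l ∈ ({i, j} : Finset (Fin k)), 1 / Real.sqrt (m l : ℝ) ≤
      ∑ l, 1 / Real.sqrt (m l : ℝ) :=
    Finset.sum_le_sum_of_subset_of_nonneg (Finset.subset_univ _) fun l _ _ => by positivity
  rw [Finset.sum_pair hij, hcon.1, hcon.2] at h1
  have h2 : Real.sqrt ((2 : ℕ) : ℝ) < 2 := by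
    rw [show ((2 : ℕ) : ℝ) = 2 by norm_num, Real.sqrt_lt' (by norm_num)]
    norm_num
  have h3 : 0 < Real.sqrt ((2 : ℕ) : ℝ) := by
    apply Real.sqrt_pos.2
    norm_num
  have h4 : 1 / 2 < 1 / Real.sqrt ((2 : ℕ) : ℝ) := one_div_lt_one_div_of_lt h3 h2
  linarith

lemma slope_cut_le (m : Fin k → ℕ) (B : ℕ) (hB : ∀ i, m i ≤ B) (T : ℕ) (hT : 1 ≤ T)
    (w : List (Fin k)) (h : Cut m T w) : slope m w ≤ T * B := by
  have hne := cut_ne_nil m T hT w h
  have h1 : slope m w = slope m w.dropLast * slope m [w.getLast hne] := by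
    rw [← slope_append, List.dropLast_append_getLast]
  rw [h1]
  apply Nat.mul_le_mul h.2
  simp only [slope, mul_one]
  exact hB _

/-- the words which have just passed `T` form a small finite set -/
lemma cut_words (m : Fin k → ℕ) (hm : ∀ i, 2 ≤ m i) (σ : ℝ) (hσ : 0 ≤ σ)
    (hq : ∑ i, ((m i : ℝ)) ^ (-σ) < 1) (B : ℕ) (hB : ∀ i, m i ≤ B) (T : ℕ) (hT : 1 ≤ T) :
    ∃ F : Finset (List (Fin k)), (∀ w, w ∈ F ↔ Cut m T w) ∧
      (F.card : ℝ) ≤ ((T : ℝ) * (B : ℝ)) ^ σ / (1 - ∑ i, ((m i : ℝ)) ^ (-σ)) := by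
  classical
  obtain ⟨F, h1, h2⟩ := words_le m hm σ hσ hq (T * B)
  refine ⟨F.filter (Cut m T), ?_, ?_⟩
  · intro w
    rw [Finset.mem_filter]
    exact ⟨fun h => h.2, fun h => ⟨h1 w (slope_cut_le m B hB T hT w h), h⟩⟩
  · calc ((F.filter (Cut m T)).card : ℝ) ≤ (F.card : ℝ) := by
          exact_mod_cast Finset.card_filter_le _ _
      _ ≤ ((T * B : ℕ) : ℝ) ^ σ / (1 - ∑ i, ((m i : ℝ)) ^ (-σ)) := h2
      _ = ((T : ℝ) * (B : ℝ)) ^ σ / (1 - ∑ i, ((m i : ℝ)) ^ (-σ)) := by push_cast; rfl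

open scoped Classical in
/-- the test fails for few translation vectors -/
theorem card_not_sep (m : Fin k → ℕ) (hm : ∀ i, 2 ≤ m i) (σ : ℝ) (hσ : 0 ≤ σ)
    (hq : ∑ i, ((m i : ℝ)) ^ (-σ) < 1) (B : ℕ) (hB : ∀ i, m i ≤ B)
    (h22 : ∀ i j, i ≠ j → m i ≠ 2 ∨ m j ≠ 2) (N T : ℕ) (hT : 1 ≤ T) :
    (((box k N).filter fun a => ¬ Sep m a N T).card : ℝ) ≤
      (8 * (B : ℝ) / (T : ℝ) + 1 / ((N : ℝ) + 1)) *
        ((B : ℝ) ^ σ / (1 - ∑ i, ((m i : ℝ)) ^ (-σ))) ^ 2 *
          (T : ℝ) ^ (2 * σ) * ((N : ℝ) + 1) ^ k := by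
  obtain ⟨F, hF1, hF2⟩ := cut_words m hm σ hσ hq B hB T hT
  set q := ∑ i, ((m i : ℝ)) ^ (-σ) with hqdef
  have hq1 : 0 < 1 - q := by linarith
  have hTq : (0 : ℚ) < (T : ℚ) := by exact_mod_cast hT
  have hTr : (0 : ℝ) < (T : ℝ) := by exact_mod_cast hT
  have hNr : (0 : ℝ) < (N : ℝ) + 1 := by positivity
  set P : List (Fin k) × List (Fin k) → Finset (Fin k → ℕ) := fun x =>
    (box k N).filter fun a => |pt m a x.1 - pt m a x.2| ≤ (N : ℚ) / (T : ℚ) with hPdef
  set Q := (F ×ˢ F).filter fun x => x.1.head? ≠ x.2.head? with hQdef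
  have hsub : ((box k N).filter fun a => ¬ Sep m a N T) ⊆ Q.biUnion P := by
    intro a ha
    rw [Finset.mem_filter] at ha
    have hns := ha.2
    unfold Sep at hns
    push Not at hns
    obtain ⟨u, v, hu, hv, huv, h1, h2⟩ := hns
    rw [Finset.mem_biUnion]
    refine ⟨(u, v), ?_, ?_⟩
    · rw [hQdef, Finset.mem_filter, Finset.mem_product]
      exact ⟨⟨(hF1 u).2 hu, (hF1 v).2 hv⟩, huv⟩
    · rw [hPdef, Finset.mem_filter]
      refine ⟨ha.1, ?_⟩
      have e1 : (N : ℚ) / (slope m u : ℚ) ≤ (N : ℚ) / (T : ℚ) := by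
        apply div_le_div_of_nonneg_left (by positivity) hTq
        exact_mod_cast hu.1.le
      have e2 : (N : ℚ) / (slope m v : ℚ) ≤ (N : ℚ) / (T : ℚ) := by
        apply div_le_div_of_nonneg_left (by positivity) hTq
        exact_mod_cast hv.1.le
      show |pt m a u - pt m a v| ≤ (N : ℚ) / (T : ℚ)
      rw [abs_le]
      constructor <;> linarith
  have hP : ∀ x ∈ Q, ((P x).card : ℝ) ≤
      (8 * (B : ℝ) / (T : ℝ) + 1 / ((N : ℝ) + 1)) * ((N : ℝ) + 1) ^ k := by
    rintro ⟨u, v⟩ hx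
    rw [hQdef, Finset.mem_filter, Finset.mem_product] at hx
    obtain ⟨⟨hu, hv⟩, huv⟩ := hx
    have hu1 := cut_ne_nil m T hT u ((hF1 u).1 hu)
    have hv1 := cut_ne_nil m T hT v ((hF1 v).1 hv)
    cases u with
    | nil => exact absurd rfl hu1
    | cons i u =>
      cases v with
      | nil => exact absurd rfl hv1
      | cons j v =>
        have hij : i ≠ j := by
          rintro rfl
          simp at huv
        have h3 : (P (i :: u, j :: v)).card * T * (N + 1) ≤ (8 * N * B + T) * (N + 1) ^ k := by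
          apply pair_bound m hm B hB h22 N T hT i j hij u v (P (i :: u, j :: v))
          · exact Finset.filter_subset _ _
          · intro a ha
            rw [hPdef, Finset.mem_filter] at ha
            exact ha.2
        have h4 : ((P (i :: u, j :: v)).card : ℝ) * (T : ℝ) * ((N : ℝ) + 1) ≤
            (8 * (N : ℝ) * (B : ℝ) + (T : ℝ)) * ((N : ℝ) + 1) ^ k := by
          exact_mod_cast h3
        have h5 : (8 * (N : ℝ) * (B : ℝ) + (T : ℝ)) * ((N : ℝ) + 1) ^ k ≤
            (8 * ((N : ℝ) + 1) * (B : ℝ) + (T : ℝ)) * ((N : ℝ) + 1) ^ k := by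
          apply mul_le_mul_of_nonneg_right _ (by positivity)
          have : (0 : ℝ) ≤ (B : ℝ) := by positivity
          nlinarith
        have h6 : (8 * ((N : ℝ) + 1) * (B : ℝ) + (T : ℝ)) * ((N : ℝ) + 1) ^ k =
            ((8 * (B : ℝ) / (T : ℝ) + 1 / ((N : ℝ) + 1)) * ((N : ℝ) + 1) ^ k) *
              ((T : ℝ) * ((N : ℝ) + 1)) := by
          field_simp
        rw [h6] at h5
        have h7 := h4.trans h5
        rw [mul_assoc] at h7
        exact le_of_mul_le_mul_right h7 (by positivity)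
  have hQ : (Q.card : ℝ) ≤ (F.card : ℝ) ^ 2 := by
    have : Q.card ≤ F.card ^ 2 := by
      calc Q.card ≤ (F ×ˢ F).card := Finset.card_filter_le _ _
        _ = F.card ^ 2 := by rw [Finset.card_product, pow_two]
    exact_mod_cast this
  have hF3 : (F.card : ℝ) ^ 2 ≤ ((B : ℝ) ^ σ / (1 - q)) ^ 2 * (T : ℝ) ^ (2 * σ) := by
    calc (F.card : ℝ) ^ 2 ≤ (((T : ℝ) * (B : ℝ)) ^ σ / (1 - q)) ^ 2 :=
          pow_le_pow_left₀ (by positivity) hF2 2
      _ = ((B : ℝ) ^ σ / (1 - q)) ^ 2 * ((T : ℝ) ^ σ) ^ 2 := by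
          rw [Real.mul_rpow hTr.le (by positivity)]
          ring
      _ = ((B : ℝ) ^ σ / (1 - q)) ^ 2 * (T : ℝ) ^ (2 * σ) := by
          rw [← Real.rpow_natCast ((T : ℝ) ^ σ) 2, ← Real.rpow_mul hTr.le]
          congr 2
          push_cast
          ring
  set R : ℝ := (8 * (B : ℝ) / (T : ℝ) + 1 / ((N : ℝ) + 1)) * ((N : ℝ) + 1) ^ k with hR
  have hR0 : 0 ≤ R := by positivity
  calc (((box k N).filter fun a => ¬ Sep m a N T).card : ℝ) ≤ ((Q.biUnion P).card : ℝ) := by
        exact_mod_cast Finset.card_le_card hsub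
    _ ≤ ∑ x ∈ Q, ((P x).card : ℝ) := by exact_mod_cast Finset.card_biUnion_le
    _ ≤ ∑ x ∈ Q, R := Finset.sum_le_sum hP
    _ = (Q.card : ℝ) * R := by rw [Finset.sum_const, nsmul_eq_mul]
    _ ≤ (((B : ℝ) ^ σ / (1 - q)) ^ 2 * (T : ℝ) ^ (2 * σ)) * R :=
        mul_le_mul_of_nonneg_right (hQ.trans hF3) hR0
    _ = _ := by rw [hR]; ring

/-- if `∑ m_i ^ (-σ) < 1` with `σ ≤ 1/2` then at most one slope is `2` -/
lemma not_both_two' (m : Fin k → ℕ) (hm : ∀ i, 2 ≤ m i) (σ : ℝ) (hσ : σ < 1 / 2)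
    (hq : ∑ i, ((m i : ℝ)) ^ (-σ) < 1) : ∀ i j, i ≠ j → m i ≠ 2 ∨ m j ≠ 2 := by
  apply not_both_two m
  refine lt_of_le_of_lt (Finset.sum_le_sum fun i _ => ?_) hq
  have hmi : (1 : ℝ) ≤ (m i : ℝ) := by
    have := hm i
    exact_mod_cast (by omega : 1 ≤ m i)
  have h : 1 / Real.sqrt (m i : ℝ) = ((m i : ℝ)) ^ (-(1 / 2 : ℝ)) := by
    rw [Real.rpow_neg (by positivity), ← Real.sqrt_eq_rpow, one_div]
  rw [h]
  exact Real.rpow_le_rpow_of_exponent_le hmi (by linarith)

open scoped Classical in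
/-- fixed thin slopes -/
theorem thin (m : Fin k → ℕ) (hm : ∀ i, 2 ≤ m i) (hthin : ∑ i, 1 / Real.sqrt (m i : ℝ) < 1) :
    ∃ C δ : ℝ, 0 < δ ∧
      (∀ T : ℕ, 1 ≤ T → ∃ F : Finset (List (Fin k)), (∀ w, w ∈ F ↔ Cut m T w) ∧
        (F.card : ℝ) ^ 2 ≤ C * (T : ℝ) ^ (1 - δ)) ∧
      (∀ N T : ℕ, 1 ≤ T → T ≤ N + 1 →
        (((box k N).filter fun a => ¬ Sep m a N T).card : ℝ) ≤
          C * (T : ℝ) ^ (-δ) * ((N : ℝ) + 1) ^ k) ∧
      (∀ N : ℕ, (((box k N).filter fun a => ¬ Free m a).card : ℝ) ≤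
        C * ((N : ℝ) + 1) ^ ((k : ℝ) - δ)) := by
  obtain ⟨σ, hσ, hσ2, hq⟩ := exists_sigma m hm hthin
  have h22 := not_both_two m hthin
  obtain ⟨B, hB⟩ : ∃ B : ℕ, ∀ i, m i ≤ B :=
    ⟨∑ i, m i, fun i => Finset.single_le_sum (fun _ _ => Nat.zero_le _) (Finset.mem_univ i)⟩
  have hq1 : 0 < 1 - ∑ i, ((m i : ℝ)) ^ (-σ) := by linarith
  have hbad : ∀ N T : ℕ, 1 ≤ T → T ≤ N + 1 →
        (((box k N).filter fun a => ¬ Sep m a N T).card : ℝ) ≤
          (8 * (B : ℝ) + 1) * ((B : ℝ) ^ σ / (1 - ∑ i, ((m i : ℝ)) ^ (-σ))) ^ 2 *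
            (T : ℝ) ^ (-(1 - 2 * σ)) * ((N : ℝ) + 1) ^ k := by
    intro N T hT hTN
    have hTr : (0 : ℝ) < (T : ℝ) := by exact_mod_cast hT
    have hTNr : (T : ℝ) ≤ (N : ℝ) + 1 := by exact_mod_cast hTN
    refine (card_not_sep m hm σ hσ hq B hB h22 N T hT).trans ?_
    rw [show (-(1 - 2 * σ)) = 2 * σ - 1 by ring, Real.rpow_sub_one hTr.ne']
    have h1 : 8 * (B : ℝ) / (T : ℝ) + 1 / ((N : ℝ) + 1) ≤ (8 * (B : ℝ) + 1) / (T : ℝ) := by
      rw [add_div]
      have := one_div_le_one_div_of_le hTr hTNr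
      linarith
    have h2 : 0 ≤ ((B : ℝ) ^ σ / (1 - ∑ i, ((m i : ℝ)) ^ (-σ))) ^ 2 *
          (T : ℝ) ^ (2 * σ) * ((N : ℝ) + 1) ^ k := by positivity
    calc (8 * (B : ℝ) / (T : ℝ) + 1 / ((N : ℝ) + 1)) *
        ((B : ℝ) ^ σ / (1 - ∑ i, ((m i : ℝ)) ^ (-σ))) ^ 2 *
          (T : ℝ) ^ (2 * σ) * ((N : ℝ) + 1) ^ k
        = (8 * (B : ℝ) / (T : ℝ) + 1 / ((N : ℝ) + 1)) *
        (((B : ℝ) ^ σ / (1 - ∑ i, ((m i : ℝ)) ^ (-σ))) ^ 2 *
          (T : ℝ) ^ (2 * σ) * ((N : ℝ) + 1) ^ k) := by ring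
      _ ≤ ((8 * (B : ℝ) + 1) / (T : ℝ)) *
        (((B : ℝ) ^ σ / (1 - ∑ i, ((m i : ℝ)) ^ (-σ))) ^ 2 *
          (T : ℝ) ^ (2 * σ) * ((N : ℝ) + 1) ^ k) := mul_le_mul_of_nonneg_right h1 h2
      _ = _ := by ring
  refine ⟨(8 * (B : ℝ) + 1) * ((B : ℝ) ^ σ / (1 - ∑ i, ((m i : ℝ)) ^ (-σ))) ^ 2, 1 - 2 * σ,
    by linarith, ?_, hbad, ?_⟩
  · intro T hT
    have hTr : (0 : ℝ) < (T : ℝ) := by exact_mod_cast hT
    obtain ⟨F, hF1, hF2⟩ := cut_words m hm σ hσ hq B hB T hT
    refine ⟨F, hF1, ?_⟩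
    calc (F.card : ℝ) ^ 2 ≤ (((T : ℝ) * (B : ℝ)) ^ σ / (1 - ∑ i, ((m i : ℝ)) ^ (-σ))) ^ 2 :=
          pow_le_pow_left₀ (by positivity) hF2 2
      _ = ((B : ℝ) ^ σ / (1 - ∑ i, ((m i : ℝ)) ^ (-σ))) ^ 2 * ((T : ℝ) ^ σ) ^ 2 := by
          rw [Real.mul_rpow hTr.le (by positivity)]
          ring
      _ = ((B : ℝ) ^ σ / (1 - ∑ i, ((m i : ℝ)) ^ (-σ))) ^ 2 * (T : ℝ) ^ (1 - (1 - 2 * σ)) := by
          rw [← Real.rpow_natCast ((T : ℝ) ^ σ) 2, ← Real.rpow_mul hTr.le]
          congr 2
          push_cast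
          ring
      _ ≤ (8 * (B : ℝ) + 1) * ((B : ℝ) ^ σ / (1 - ∑ i, ((m i : ℝ)) ^ (-σ))) ^ 2 *
            (T : ℝ) ^ (1 - (1 - 2 * σ)) := by
          apply mul_le_mul_of_nonneg_right _ (by positivity)
          apply le_mul_of_one_le_left (by positivity)
          have : (0 : ℝ) ≤ (B : ℝ) := by positivity
          linarith
  · intro N
    have hN : (0 : ℝ) < (N : ℝ) + 1 := by positivity
    have h1 := hbad N (N + 1) (by omega) le_rfl
    have h2 : (((box k N).filter fun a => ¬ Free m a).card : ℝ) ≤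
        (((box k N).filter fun a => ¬ Sep m a N (N + 1)).card : ℝ) := by
      have h3 : ((box k N).filter fun a => ¬ Free m a) ⊆
          ((box k N).filter fun a => ¬ Sep m a N (N + 1)) := by
        intro a ha
        rw [Finset.mem_filter] at ha ⊢
        refine ⟨ha.1, fun hs => ha.2 ?_⟩
        exact free_of_sep m a hm N (N + 1) (by omega) ((mem_box N a).1 ha.1) hs
      exact_mod_cast Finset.card_le_card h3
    refine h2.trans (h1.trans (le_of_eq ?_))
    rw [mul_assoc, Nat.cast_add, Nat.cast_one, ← Real.rpow_natCast ((N : ℝ) + 1) k,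
      ← Real.rpow_add hN]
    congr 2
    ring

open scoped Classical in
/-- **Result.** The separation test is sound: if it succeeds at one level `T ≥ 1` then the semigroup is free.
If `∑ 1/√m_i < 1` then for suitable `C` and `δ > 0`: the test at level `T` looks at finitely many words,
and at most at `C T^(1-δ)` pairs of them; for `T ≤ N+1` it fails for at most `C T^(-δ) (N+1)^k` of the
translation vectors in `[0,N]^k`; and all but `C (N+1)^(k-δ)` of these vectors give free semigroups. -/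
theorem result :
    (∀ (k : ℕ) (m a : Fin k → ℕ) (N T : ℕ), (∀ i, 2 ≤ m i) → (∀ i, a i ≤ N) → 1 ≤ T →
      Sep m a N T → Free m a) ∧
    (∀ (k : ℕ) (m : Fin k → ℕ), (∀ i, 2 ≤ m i) → ∑ i, 1 / Real.sqrt (m i : ℝ) < 1 →
      ∃ C δ : ℝ, 0 < δ ∧
        (∀ T : ℕ, 1 ≤ T → ∃ F : Finset (List (Fin k)), (∀ w, w ∈ F ↔ Cut m T w) ∧
          (F.card : ℝ) ^ 2 ≤ C * (T : ℝ) ^ (1 - δ)) ∧
        (∀ N T : ℕ, 1 ≤ T → T ≤ N + 1 →
          (((box k N).filter fun a => ¬ Sep m a N T).card : ℝ) ≤
            C * (T : ℝ) ^ (-δ) * ((N : ℝ) + 1) ^ k) ∧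
        (∀ N : ℕ, (((box k N).filter fun a => ¬ Free m a).card : ℝ) ≤
          C * ((N : ℝ) + 1) ^ ((k : ℝ) - δ))) :=
  ⟨fun _ m a N T hm ha hT hs => free_of_sep m a hm N T hT ha hs, fun _ m hm hthin => thin m hm hthin⟩

end Pool.Agent.Results.MP_b21470_lc.ThinSlopes
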